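import Pool.Agent.N299.PX.Stm

/-!
Project PX, part ID: positive elements of the closed ideal generated by `b`.
-/

set_option autoImplicit false

noncomputable section

namespace Pool.Agent.N950.PX

open Pool.Agent.N299 Pool.Agent.N299.PX

variable {A : Type} [CStarAlgebra A]

/-- the inverse square root of an invertible positive element -/
lemma inv_sqrt {x : A} {r : ℝ} (hr : 0 < r) (h : Pos (x - (r : ℂ) • (1 : A))) :
    ∃ R : A, star R = R ∧ R * x * R = 1 := by
  let _ : PartialOrder A := CStarAlgebra.spectralOrder A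
  let _ : StarOrderedRing A := CStarAlgebra.spectralOrderedRing A
  have hsa : IsSelfAdjoint x := by
    have h1 := h.sa
    rw [star_sub, star_smul, star_one, RCLike.star_def, Complex.conj_ofReal] at h1
    exact sub_left_injective h1
  rw [pos_iff, sub_nonneg, real_smul_eq, ← Algebra.algebraMap_eq_smul_one,
    algebraMap_le_iff_le_spectrum hsa] at h
  have hcont : ContinuousOn (fun t : ℝ => (Real.sqrt t)⁻¹) (spectrum ℝ x) := by
    refine ContinuousOn.inv₀ (by fun_prop) fun t ht => ?_
    have := h t ht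
    exact (Real.sqrt_pos.2 (by linarith)).ne'
  refine ⟨cfc (fun t : ℝ => (Real.sqrt t)⁻¹) x, cfc_sa _ _, ?_⟩
  nth_rewrite 2 [← cfc_id' ℝ x]
  rw [← cfc_mul (R := ℝ) _ _ x hcont (by fun_prop), ← cfc_mul (R := ℝ)
    (fun t : ℝ => (Real.sqrt t)⁻¹ * t) (fun t : ℝ => (Real.sqrt t)⁻¹) x
    (hcont.mul (by fun_prop)) hcont, ← cfc_one ℝ x]
  refine cfc_congr fun t ht => ?_
  have h0 : 0 < t := by linarith [h t ht]
  have h1 : Real.sqrt t ≠ 0 := (Real.sqrt_pos.2 h0).ne'
  have h2 : Real.sqrt t * Real.sqrt t = t := Real.mul_self_sqrt h0.le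
  simp only [Pi.one_apply]
  field_simp
  nlinarith

lemma exists_root {a : A} (h : Pos a) : ∃ u : A, star u = u ∧ u * u = a := by
  let _ : PartialOrder A := CStarAlgebra.spectralOrder A
  let _ : StarOrderedRing A := CStarAlgebra.spectralOrderedRing A
  rw [pos_iff] at h
  exact ⟨CFC.sqrt a, (CFC.sqrt_nonneg a).isSelfAdjoint, CFC.sqrt_mul_sqrt_self a h⟩

/-- sums `∑ star w b w` dominate the real parts of the elements of the span -/
def Dom (b s : A) : Prop :=
  ∃ (K : ℕ) (w : Fin K → A), Pos ((∑ j, star (w j) * b * w j) - (s + star s))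

lemma dom_gen {b : A} (hb : Pos b) (x z : A) : Dom b (x * b * z) := by
  obtain ⟨v, rfl⟩ := hb
  refine ⟨2, ![star x, z], ⟨v * star x - v * z, ?_⟩⟩
  rw [Fin.sum_univ_two]
  simp only [Matrix.cons_val_zero, Matrix.cons_val_one, star_sub, star_mul, star_star]
  noncomm_ring

lemma dom_zero (b : A) : Dom b 0 := ⟨0, Fin.elim0, by simpa using pos_zero⟩

lemma dom_add {b s t : A} (hs : Dom b s) (ht : Dom b t) : Dom b (s + t) := by
  obtain ⟨K, w, hw⟩ := hs
  obtain ⟨L, y, hy⟩ := ht
  refine ⟨K + L, Fin.append w y, ?_⟩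
  rw [Fin.sum_univ_add]
  simp only [Fin.append_left, Fin.append_right]
  have h := hw.add hy
  rw [star_add]
  convert h using 1
  abel

lemma dom_span {b : A} (hb : Pos b) (s : A)
    (hs : s ∈ Submodule.span ℂ {c : A | ∃ x z : A, c = x * b * z}) : ∀ c : ℂ, Dom b (c • s) := by
  induction hs using Submodule.span_induction with
  | mem s h =>
    obtain ⟨x, z, rfl⟩ := h
    intro c
    have := dom_gen hb (c • x) z
    rwa [smul_mul_assoc, smul_mul_assoc] at this
  | zero =>
    intro c
    rw [smul_zero]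
    exact dom_zero b
  | add s t _ _ h1 h2 =>
    intro c
    rw [smul_add]
    exact dom_add (h1 c) (h2 c)
  | smul d s _ h =>
    intro c
    rw [smul_smul]
    exact h _

lemma pos_norm {x : A} (hx : star x = x) {δ : ℝ} (h : ‖x‖ ≤ δ) : Pos ((δ : ℂ) • (1 : A) - x) := by
  let _ : PartialOrder A := CStarAlgebra.spectralOrder A
  let _ : StarOrderedRing A := CStarAlgebra.spectralOrderedRing A
  have h1 : x ≤ algebraMap ℝ A ‖x‖ := IsSelfAdjoint.le_algebraMap_norm_self hx
  have h2 : algebraMap ℝ A ‖x‖ ≤ algebraMap ℝ A δ := algebraMap_mono A h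
  rw [pos_iff, real_smul_eq, ← Algebra.algebraMap_eq_smul_one]
  exact sub_nonneg.2 (h1.trans h2)

theorem t_ID : S_ID := by
  intro B _ a b ha hb hcl ε hε
  obtain ⟨δ, hδ⟩ : ∃ δ : ℝ, δ = ε / 4 := ⟨_, rfl⟩
  have hδ0 : 0 < δ := by rw [hδ]; positivity
  obtain ⟨s, hs, hsa⟩ := Metric.mem_closure_iff.1 hcl δ hδ0
  rw [dist_eq_norm] at hsa
  obtain ⟨K, w, hw⟩ := dom_span hb s hs (1 / 2)
  set S := ∑ j, star (w j) * b * w j with hS
  have hSp : Pos S := Pos.sum _ _ fun j _ => hb.conj (w j)
  obtain ⟨h, hh⟩ : ∃ h : B, h = (1 / 2 : ℂ) • s + star ((1 / 2 : ℂ) • s) := ⟨_, rfl⟩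
  rw [← hh] at hw
  have hsth : star h = h := by
    rw [hh, star_add, star_star, add_comm]
  have hah : ‖a - h‖ ≤ δ := by
    have e1 : a - h = (1 / 2 : ℂ) • (a - s) + star ((1 / 2 : ℂ) • (a - s)) := by
      have e2 : a = (1 / 2 : ℂ) • a + star ((1 / 2 : ℂ) • a) := by
        rw [star_smul, ha.sa]
        simp only [one_div, star_inv₀, RCLike.star_def, map_ofNat]
        rw [← add_smul]
        norm_num
      rw [hh, smul_sub, star_sub]
      nth_rewrite 1 [e2]
      abel
    rw [e1]
    refine (norm_add_le _ _).trans ?_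
    rw [norm_star, norm_smul]
    have e3 : ‖(1 / 2 : ℂ)‖ = 1 / 2 := by norm_num
    rw [e3]
    linarith
  have hp1 : Pos ((δ : ℂ) • (1 : B) - (a - h)) :=
    pos_norm (by rw [star_sub, ha.sa, hsth]) hah
  have hp2 : Pos (S + (δ : ℂ) • (1 : B) - a) := by
    have := hw.add hp1
    convert this using 1
    abel
  have hone : Pos ((δ : ℂ) • (1 : B)) := by
    have : Pos (1 : B) := ⟨1, by simp⟩
    exact this.smul hδ0.le
  obtain ⟨T, hT⟩ : ∃ T : B, T = S + (δ : ℂ) • (1 : B) + (δ : ℂ) • (1 : B) := ⟨_, rfl⟩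
  have hT1 : Pos (T - (δ : ℂ) • (1 : B)) := by
    rw [hT, add_sub_cancel_right]
    exact hSp.add hone
  have hT2 : Pos (T - a) := by
    have := hp2.add hone
    rw [hT]
    convert this using 1
    abel
  obtain ⟨R, hR, hRT⟩ := inv_sqrt hδ0 hT1
  obtain ⟨u, hu, huu⟩ := exists_root ha
  have hz1 : ‖u * R‖ ≤ 1 := by
    have h1 : Pos (((1 : ℝ) : ℂ) • (star (1 : B) * 1) - star (u * R) * (u * R)) := by
      have h2 := hT2.conj R
      rw [hR] at h2
      convert h2 using 1
      rw [star_mul, hR, hu, mul_sub, sub_mul, hRT, ← huu, star_one, mul_one, Complex.ofReal_one,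
        one_smul]
      simp only [mul_assoc]
    have h2 := norm_sq_le_of_pos zero_le_one h1
    rw [one_mul] at h2
    rcases subsingleton_or_nontrivial B with hB | hB
    · rw [Subsingleton.elim (u * R) 0, norm_zero]
      exact zero_le_one
    · rw [norm_one, one_pow] at h2
      exact (sq_le_one_iff₀ (norm_nonneg _)).1 h2
  refine ⟨K, fun j => w j * star (u * R), ?_⟩
  have e1 : ∑ j, star (w j * star (u * R)) * b * (w j * star (u * R)) =
      (u * R) * S * star (u * R) := by
    rw [hS, Finset.mul_sum, Finset.sum_mul]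
    refine Finset.sum_congr rfl fun j _ => ?_
    rw [star_mul, star_star]
    simp only [mul_assoc]
  have e2 : a = (u * R) * T * star (u * R) := by
    rw [star_mul, hR, hu, ← huu]
    have : u * R * T * (R * u) = u * (R * T * R) * u := by simp only [mul_assoc]
    rw [this, hRT, mul_one]
  have e3 : a - (u * R) * S * star (u * R) = (δ : ℂ) • ((u * R) * star (u * R)) +
      (δ : ℂ) • ((u * R) * star (u * R)) := by
    nth_rewrite 1 [e2]
    rw [hT]
    simp only [mul_add, add_mul, mul_smul_comm, smul_mul_assoc, mul_one]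
    abel
  rw [e1, e3]
  have e4 : ‖(δ : ℂ) • ((u * R) * star (u * R))‖ ≤ δ := by
    rw [norm_smul, Complex.norm_real, Real.norm_of_nonneg hδ0.le]
    have : ‖(u * R) * star (u * R)‖ ≤ 1 := by
      refine (norm_mul_le _ _).trans ?_
      rw [norm_star]
      exact mul_le_one₀ hz1 (norm_nonneg _) hz1
    nlinarith
  refine (norm_add_le _ _).trans ?_
  linarith

end Pool.Agent.N950.PX
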